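import Pool.Agent.Lib.MP_182bbb_co.DU.H65.Forest

/-!
# MP_182bbb_co : disjoint unions of books of every uniformity

An `r`-uniform book is a nonempty finite set of `r`-sets which all contain one common
`(r-1)`-set.  `H` is the union of `m ≥ 1` books with pairwise disjoint vertex sets.
-/

open Filter Topology MP_182bbb_co.H5 MP_182bbb_co.AR

/-- `H` is a tight tree, `ex_r(n, (∂H)^+) / C(n, r-1)` tends to `|H| + m - 1`, and for `m = 1`
every finite `r`-graph `G` without a copy of `(∂H)^+` has at most `|H| * |∂G|` edges. -/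
theorem Pool.Agent.Results.MP_182bbb_co.BookForests.result {α : Type*} [DecidableEq α]
    (r : ℕ) (hr : 2 ≤ r) (m : ℕ) (hm : 1 ≤ m) (B : Fin m → Finset (Finset α))
    (hB : ∀ i, IsBook r (B i)) (hd : ∀ i j, i ≠ j → Disjoint (verts (B i)) (verts (B j))) :
    IsTightTree (Finset.univ.biUnion B) ∧
      (m = 1 → ∀ (V : Type) [Fintype V] [DecidableEq V] (G : Finset (Finset V)),
        IsUniform r G →
        ¬ ContainsCopy (expansion 1 (MP_182bbb_co.H5.shadow (Finset.univ.biUnion B))) G →
        G.card ≤ (Finset.univ.biUnion B).card * (MP_182bbb_co.H5.shadow G).card) ∧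
      Tendsto (fun n : ℕ =>
        (ex r n (expansion 1 (MP_182bbb_co.H5.shadow (Finset.univ.biUnion B))) : ℝ) /
          (n.choose (r - 1) : ℝ)) atTop (𝓝 (((Finset.univ.biUnion B).card + m - 1 : ℕ) : ℝ)) :=
  MP_182bbb_co.DU.forest_books r hr m hm B hB hd
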