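import Pool.Agent.Lib.MP_182bbb_co.H67.Final

/-!
# MP_182bbb_co : the crosscut number of `T^+` is not the limit when `r ≥ 5`

For a tight tree `H` (in the sense of the problem file) and `T = ∂H`, all `r`-sets meeting a fixed
set of `σ(T^+) - 1` vertices in exactly one vertex give the standard lower bound
`lim ex_r(n, T^+) / binom(n, r-1) ≥ σ(T^+) - 1`, where `σ` is the crosscut number.  For every
`r ≥ 5` there are tight trees for which the limit is larger than `1.23 σ(T^+)`, and the factor
tends (at least) to `2` as `r → ∞`.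
-/

open Filter Topology MP_182bbb_co.H5 MP_182bbb_co.H67

/-- There are factors `f r ≥ 99/80` (`r ≥ 5`) tending to `2` such that for every `r ≥ 5` and every
`c < f r` some nonempty `r`-uniform tight tree `H` satisfies
`ex_r(n, (∂H)^+) ≥ c σ((∂H)^+) binom(n, r-1)` for all large `n`. -/
theorem Pool.Agent.Results.MP_182bbb_co.NonCrosscut.result :
    ∃ f : ℕ → ℝ, (∀ r ≥ 5, 99 / 80 ≤ f r) ∧ Tendsto f atTop (𝓝 2) ∧
      ∀ r ≥ 5, ∀ c < f r,
        ∃ H : Finset (Finset (ℕ ⊕ (ℕ × ℕ))), H.Nonempty ∧ IsUniform r H ∧ IsTightTree H ∧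
          0 < crosscut (expansion 1 (shadow H)) ∧
          (∃ S, S.card = crosscut (expansion 1 (shadow H)) ∧
            IsCrosscut (expansion 1 (shadow H)) S) ∧
          ∀ᶠ n : ℕ in atTop,
            c * (crosscut (expansion 1 (shadow H)) : ℝ) * (n.choose (r - 1) : ℝ) ≤
              (ex r n (expansion 1 (shadow H)) : ℝ) :=
  exists_factor
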