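import Pool.Agent.Lib.MP_182bbb_co.AR.Final

/-!
# MP_182bbb_co : bounds for all strict tight trees of every uniformity

`H` is an `r`-uniform tight tree in which every new edge has exactly `r - 1` vertices in the union
of the earlier edges.
-/

open Filter Topology MP_182bbb_co.H5 MP_182bbb_co.AR

/-- For every `r ≥ 2` and every strict `r`-uniform tight tree `H` with `N` edges: `H` is a tight
tree, every `r`-graph `G` without a copy of `(∂H)^+` has at most `(2N-1) * |∂G|` edges, and
`N * C(n-N, r-1) ≤ ex_r(n, (∂H)^+) ≤ (2N-1) * C(n, r-1)` for all `n`. -/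
theorem Pool.Agent.Results.MP_182bbb_co.StrictBoundsAllR.result {α : Type*} [DecidableEq α]
    (r : ℕ) (hr : 2 ≤ r) (H : Finset (Finset α)) (hH : IsStrictTree r H) :
    IsTightTree H ∧
      (∀ (V : Type) [Fintype V] [DecidableEq V] (G : Finset (Finset V)), IsUniform r G →
        ¬ ContainsCopy (expansion 1 (MP_182bbb_co.H5.shadow H)) G →
        G.card ≤ (2 * H.card - 1) * (MP_182bbb_co.H5.shadow G).card) ∧
      (∀ n : ℕ, H.card * (n - H.card).choose (r - 1) ≤
          ex r n (expansion 1 (MP_182bbb_co.H5.shadow H)) ∧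
        ex r n (expansion 1 (MP_182bbb_co.H5.shadow H)) ≤ (2 * H.card - 1) * n.choose (r - 1)) :=
  strict_tree r hr H hH
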