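import Pool.Agent.Lib.MP_182bbb_co.DU.H65.Forest

/-!
# MP_182bbb_co : 3-uniform tight trees with attachments of size 0 or 2

`H` is a 3-uniform tight tree (in the sense of the problem file) with a listing in which the
intersection of every edge with the union of the earlier ones has `0` or `2` elements, `z` of these
intersections (not counting the first edge) being empty.
-/

open Filter Topology MP_182bbb_co.H5 MP_182bbb_co.DU

/-- For such `H`, `ex_3(n, (∂H)^+) / C(n,2)` tends to `|H| + z`. -/
theorem Pool.Agent.Results.MP_182bbb_co.TightTrees02.result {α : Type*} [DecidableEq α]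
    (H : Finset (Finset α)) (z : ℕ) (hH : IsTree02 H z) :
    IsTightTree H ∧
      Tendsto (fun n : ℕ => (ex 3 n (expansion 1 (MP_182bbb_co.H5.shadow H)) : ℝ) /
        (n.choose 2 : ℝ)) atTop (𝓝 ((H.card + z : ℕ) : ℝ)) :=
  forest_three' hH
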